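import Pool.Agent.R574.RE.Left

set_option autoImplicit false

/-!
# No right random context rules are needed: `k_min = 0`

Every recursively enumerable language is generated by a left random context grammar, that is, by a
one-sided random context grammar without right random context rules.
-/

open Pool.Agent.R574.RE in
/-- Every recursively enumerable language is generated by a one-sided random context grammar with
`P_R = ∅`; hence the least `k` such that every recursively enumerable language is generated by a
one-sided random context grammar with at most `k` right random context rules is `0`. -/
theorem Pool.Agent.Results.MP_05b2f7_lc.LeastNumberIsZero.result :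
    (∀ (t : ℕ) (L : Set (List (Fin t))), REPred (fun w : List (Fin t) => w ∈ L) →
      ∃ G : ORC (Fin t), G.PR = ∅ ∧ G.language = L) ∧
    IsLeast {k : ℕ | ∀ (t : ℕ) (L : Set (List (Fin t))), REPred (fun w : List (Fin t) => w ∈ L) →
      ∃ G : ORC (Fin t), G.PR.ncard ≤ k ∧ G.language = L} 0 := by
  refine ⟨fun t L hL => Left.left_rc L hL, ?_, fun k _ => Nat.zero_le k⟩
  intro t L hL
  obtain ⟨G, h1, h2⟩ := Left.left_rc L hL
  exact ⟨G, by rw [h1]; simp, h2⟩
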